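import Pool.Agent.H24.CL.TargetsK

/-!
# Row S3 of the board clk_modules: the step with Lemma S
-/

set_option autoImplicit false

open Finset MeasureTheory

namespace Pool.Agent.H56.CLK

open Pool.Agent.H24.CL

theorem zb_nonneg {k q r : ℕ} {W : ℕ → Set (X k)} {R : ℕ → ℕ} {n G : ℕ → ℝ} {B : ℝ}
    (h : Lev k q W R n G B) (hr : 1 ≤ r) (hk : 3 ≤ k) : 0 ≤ ZB k q r R n G := by
  unfold ZB
  refine mul_nonneg (Finset.prod_nonneg fun l hl => ?_) (Finset.prod_nonneg fun l hl => ?_)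
  · rw [Finset.mem_Icc] at hl
    have h1 := (h.hn l hl.1 (by omega)).1
    positivity
  · rw [Finset.mem_Icc] at hl
    have h1 := h.hG l (by omega) (by omega)
    positivity

theorem pf_S3 (hAV : TK_AV) (hZL : TK_ZL) (hSL : TK_SL) (_hHM : TK_HM) : TK_S3 := by
  classical
  intro k hk
  obtain ⟨C, c, hC, HZ⟩ := hZL k hk
  have hk3 : (3 : ℝ) ≤ k := by exact_mod_cast hk
  have hfac : (1 : ℝ) ≤ (Nat.factorial k : ℝ) := by
    exact_mod_cast Nat.succ_le_of_lt (Nat.factorial_pos k)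
  refine ⟨8 * ((k : ℝ) - 1) * (Nat.factorial k : ℝ) * C, c, ?_, ?_⟩
  · have h1 : (1 : ℝ) ≤ (Nat.factorial k : ℝ) * C := by nlinarith
    have h2 : (1 : ℝ) ≤ 8 * ((k : ℝ) - 1) := by linarith
    nlinarith
  · intro q W R n G B hq hkq hm0 hm1 hL hn0q hG0 hCar hCnt0 hCnt1 h2k h4 h5
    have hqpos : (0 : ℝ) < q := by exact_mod_cast hq.pos
    have hn0 : 0 < n 0 := by linarith
    have hn01 : 1 ≤ n 0 := by linarith
    have hZB : 0 ≤ ZB k q 3 R n G := zb_nonneg hL (by norm_num) hk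
    have hG1 : 1 ≤ G 1 := hL.hG 1 le_rfl (by omega)
    have hcnt1 : Cnt (Ln k q) (W 1) (G 1) := hL.cnt 1 le_rfl (by omega)
    have hB : 1 ≤ B := hL.hB
    have hk1 : (0 : ℝ) ≤ (k : ℝ) - 1 := by linarith
    obtain ⟨F, hFd⟩ : ∃ F : ℝ, F = (Nat.factorial k : ℝ) * G 0 ^ k := ⟨_, rfl⟩
    have hG0k : 1 ≤ G 0 ^ k := one_le_pow₀ hG0
    have hF1 : 1 ≤ F := by
      rw [hFd]
      nlinarith
    obtain ⟨Z, hZd⟩ : ∃ Z : ℝ,
        Z = C * B ^ c * ((q : ℝ) / n 0) ^ (k - 3) * ZB k q 3 R n G := ⟨_, rfl⟩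
    have hZ0 : 0 ≤ Z := by
      rw [hZd]
      positivity
    have hE0 : 0 ≤ 8 * ((k : ℝ) - 1) * F * G 1 * (q : ℝ) ^ (k - 1) / n 0 ^ 3 := by
      have : 0 ≤ F := by linarith
      positivity
    have key := hAV k q 3 hq.one_le hk (W 0) (W 1)
      (8 * ((k : ℝ) - 1) * F * G 1 * (q : ℝ) ^ (k - 1) / n 0 ^ 3) Z hm0 hm1 hE0 hZ0 ?_ ?_
    · refine le_trans key (le_of_eq ?_)
      obtain ⟨m, rfl⟩ : ∃ m, k = m + 3 := ⟨k - 3, by omega⟩
      have e1 : m + 3 - 3 = m := by omega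
      have e2 : m + 3 - 1 = m + 2 := by omega
      rw [hZd, hFd, e1, e2, div_pow, div_pow]
      have hn0' : n 0 ≠ 0 := hn0.ne'
      field_simp
      ring
    · intro a Y hY
      have hS := hSL k q hk hq hkq (W 0) (W 1) (n 0) (G 1) F hn01 hG1 hF1 hcnt1 hCnt1
        (by rw [hFd]; exact hCnt0) hCar h4 h5 a Y hY
      have hn3 : 0 < n 0 ^ 3 := by positivity
      rw [div_mul_eq_mul_div, le_div_iff₀ hn3, mul_comm]
      exact hS
    · intro b hb Y hYB hY1 hY2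
      have h6 := HZ q W R n G B hq hkq hL 3 b (n 0) Y (by norm_num) hk hb h2k ?_ hY1 hY2
      · rw [hZd]
        exact h6
      · intro y hy
        have h7 := hYB y hy
        unfold Bs at h7
        rw [Finset.mem_filter] at h7
        obtain ⟨_, h, hh, hyh, _⟩ := h7
        obtain ⟨D, hD1, hD2, hD3⟩ := hCar (y + h) hyh
        exact ⟨D, hD1, fun b hb => ⟨h, hh, hD2 b hb⟩, hD3⟩

end Pool.Agent.H56.CLK
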